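import Pool.Agent.H3.BI.Stm1

/-!
# Project BD, part BAS: elementary properties of the functionals
-/

set_option autoImplicit false

open scoped ENNReal
open Finset MeasureTheory

namespace Pool.Agent.H74.BD

open Pool.Agent.H3.BI

variable {d : ℕ}

theorem BAS_steps_mono (D : Set (Site d)) (x : Site d) (k : ℕ) {f g : Cf d → ℝ≥0∞}
    (h : ∀ p, f p ≤ g p) : ∀ p, steps D x k f p ≤ steps D x k g p := by
  induction k with
  | zero => intro p; exact h p
  | succ k ih =>
    intro p
    show (∑ e : Dir d, steps D x k f (arr D (x + uvec e) p)) / (2 * d) ≤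
      (∑ e : Dir d, steps D x k g (arr D (x + uvec e) p)) / (2 * d)
    exact ENNReal.div_le_div_right (Finset.sum_le_sum fun e _ => ih _) _

theorem BAS_top_mono (ν : PMF ℕ) (D : Set (Site d)) (x : Site d) {f g : Cf d → ℝ≥0∞}
    (h : ∀ p, f p ≤ g p) : ∀ p, top ν D x f p ≤ top ν D x g p := by
  intro p
  unfold top
  exact ENNReal.tsum_le_tsum fun k => mul_le_mul_right (BAS_steps_mono D x k h p) _

theorem BAS_Ph_mono (ν : PMF ℕ) (D : Set (Site d)) {f g : Finset (Site d) → ℝ≥0∞}
    (h : ∀ A, f A ≤ g A) (n : ℕ) : ∀ p, Ph ν D f n p ≤ Ph ν D g n p := by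
  induction n with
  | zero =>
    rintro ⟨A, L⟩
    cases L with
    | nil => simpa using h A
    | cons x L => simp
  | succ n ih =>
    rintro ⟨A, L⟩
    cases L with
    | nil => simpa using h A
    | cons x L =>
      rw [Ph_succ_cons, Ph_succ_cons]
      exact BAS_top_mono ν D x ih _

theorem BAS_Ph_succ (ν : PMF ℕ) (D : Set (Site d)) (f : Finset (Site d) → ℝ≥0∞) (n : ℕ) :
    ∀ p, Ph ν D f n p ≤ Ph ν D f (n + 1) p := by
  induction n with
  | zero =>
    rintro ⟨A, L⟩
    cases L with
    | nil => simp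
    | cons x L => simp
  | succ n ih =>
    rintro ⟨A, L⟩
    cases L with
    | nil => simp
    | cons x L =>
      rw [Ph_succ_cons, Ph_succ_cons]
      exact BAS_top_mono ν D x ih _

/-- Linearity of `steps`. -/
theorem BAS_steps_tsum {ι : Type} (D : Set (Site d)) (x : Site d) (k : ℕ) (c : ι → ℝ≥0∞)
    (h : ι → Cf d → ℝ≥0∞) :
    ∀ p, steps D x k (fun p => ∑' i, c i * h i p) p = ∑' i, c i * steps D x k (h i) p := by
  induction k with
  | zero => intro p; rfl
  | succ k ih =>
    intro p
    show (∑ e : Dir d, steps D x k (fun p => ∑' i, c i * h i p) (arr D (x + uvec e) p)) / (2 * d) =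
      ∑' i, c i * ((∑ e : Dir d, steps D x k (h i) (arr D (x + uvec e) p)) / (2 * d))
    have e1 : (∑ e : Dir d, steps D x k (fun p => ∑' i, c i * h i p) (arr D (x + uvec e) p)) =
        ∑' i, c i * ∑ e : Dir d, steps D x k (h i) (arr D (x + uvec e) p) := by
      rw [Finset.sum_congr rfl fun e _ => ih (arr D (x + uvec e) p)]
      rw [← Summable.tsum_finsetSum fun i _ => ENNReal.summable]
      refine tsum_congr fun i => ?_
      rw [Finset.mul_sum]
    rw [e1, div_eq_mul_inv, ← ENNReal.tsum_mul_right]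
    refine tsum_congr fun i => ?_
    rw [div_eq_mul_inv, mul_assoc]

theorem BAS_top_tsum {ι : Type} (ν : PMF ℕ) (D : Set (Site d)) (x : Site d) (c : ι → ℝ≥0∞)
    (h : ι → Cf d → ℝ≥0∞) (p : Cf d) :
    top ν D x (fun p => ∑' i, c i * h i p) p = ∑' i, c i * top ν D x (h i) p := by
  unfold top
  have e1 : ∀ k : ℕ, ν k * steps D x k (fun p => ∑' i, c i * h i p) p =
      ∑' i, c i * (ν k * steps D x k (h i) p) := by
    intro k
    rw [BAS_steps_tsum, ← ENNReal.tsum_mul_left]
    refine tsum_congr fun i => ?_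
    ring
  rw [tsum_congr e1, ENNReal.tsum_comm]
  refine tsum_congr fun i => ?_
  rw [ENNReal.tsum_mul_left]

theorem BAS_single (f : Finset (Site d) → ℝ≥0∞) (A : Finset (Site d)) :
    f A = ∑' B, f B * ind (fun C : Finset (Site d) => C = B) A := by
  classical
  rw [tsum_eq_single A]
  · simp [ind]
  · intro B hB
    have : ¬ (A = B) := fun h => hB h.symm
    simp [ind, this]

theorem BAS_Ph_tsum (ν : PMF ℕ) (D : Set (Site d)) (f : Finset (Site d) → ℝ≥0∞) (n : ℕ) :
    ∀ p, Ph ν D f n p = ∑' B, f B * Ph ν D (ind fun C => C = B) n p := by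
  induction n with
  | zero =>
    rintro ⟨A, L⟩
    cases L with
    | nil => simpa using BAS_single f A
    | cons x L => simp
  | succ n ih =>
    rintro ⟨A, L⟩
    cases L with
    | nil => simpa using BAS_single f A
    | cons x L =>
      rw [Ph_succ_cons]
      simp only [Ph_succ_cons]
      rw [← BAS_top_tsum]
      have : Ph ν D f n = fun p => ∑' B, f B * Ph ν D (ind fun C => C = B) n p := by
        funext p; exact ih p
      rw [this]

theorem BAS_tsum_iSup {ι : Type} (g : ι → ℕ → ℝ≥0∞) (hg : ∀ i, Monotone (g i)) :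
    ∑' i, ⨆ n, g i n = ⨆ n, ∑' i, g i n := by
  rw [ENNReal.tsum_eq_iSup_sum]
  have e : ∀ s : Finset ι, ∑ i ∈ s, ⨆ n, g i n = ⨆ n, ∑ i ∈ s, g i n := by
    intro s
    exact ENNReal.finsetSum_iSup_of_monotone fun i => hg i
  simp only [e]
  rw [iSup_comm]
  refine iSup_congr fun n => ?_
  rw [ENNReal.tsum_eq_iSup_sum]

theorem BAS_KD_tsum (ν : PMF ℕ) (D : Set (Site d)) (f : Finset (Site d) → ℝ≥0∞)
    (A : Finset (Site d)) :
    KD ν D f A = ∑' B, f B * KD ν D (ind fun C => C = B) A := by
  unfold KD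
  have e : ∀ n, Ph ν D f n (A, [0]) =
      ∑' B, f B * Ph ν D (ind fun C => C = B) n (A, [0]) := fun n => BAS_Ph_tsum ν D f n _
  simp only [e, ENNReal.mul_iSup]
  rw [BAS_tsum_iSup]
  intro B
  refine monotone_nat_of_le_succ fun n => ?_
  exact mul_le_mul_right (BAS_Ph_succ ν D _ n _) _

theorem BAS_steps_le_one (hd : 3 ≤ d) (D : Set (Site d)) (x : Site d) (k : ℕ) {f : Cf d → ℝ≥0∞}
    (h : ∀ p, f p ≤ 1) : ∀ p, steps D x k f p ≤ 1 := by
  induction k with
  | zero => intro p; exact h p
  | succ k ih =>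
    intro p
    show (∑ e : Dir d, steps D x k f (arr D (x + uvec e) p)) / (2 * d) ≤ 1
    have hd0 : (2 * (d : ℝ≥0∞)) ≠ 0 := by
      have : (d : ℝ≥0∞) ≠ 0 := by
        rw [Ne, Nat.cast_eq_zero]; omega
      simpa using this
    have hdt : (2 * (d : ℝ≥0∞)) ≠ ⊤ := by finiteness
    rw [ENNReal.div_le_iff hd0 hdt, one_mul]
    calc ∑ e : Dir d, steps D x k f (arr D (x + uvec e) p) ≤ ∑ _e : Dir d, (1 : ℝ≥0∞) :=
          Finset.sum_le_sum fun e _ => ih _
      _ = 2 * d := by
          rw [Finset.sum_const, Finset.card_univ]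
          simp [Dir, Fintype.card_prod, mul_comm]

theorem BAS_Ph_le_one (hd : 3 ≤ d) (ν : PMF ℕ) (D : Set (Site d)) (n : ℕ) :
    ∀ p, Ph ν D (fun _ => 1) n p ≤ 1 := by
  induction n with
  | zero =>
    rintro ⟨A, L⟩
    cases L with
    | nil => simp
    | cons x L => simp
  | succ n ih =>
    rintro ⟨A, L⟩
    cases L with
    | nil => simp
    | cons x L =>
      rw [Ph_succ_cons]
      unfold top
      calc ∑' k : ℕ, ν k * steps D x k (Ph ν D (fun _ => 1) n) (A, L)
          ≤ ∑' k : ℕ, ν k * 1 :=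
            ENNReal.tsum_le_tsum fun k => mul_le_mul_right (BAS_steps_le_one hd D x k ih _) _
        _ = 1 := by simp [ν.tsum_coe]

theorem BAS_arr_sub (D : Set (Site d)) (y : Site d) (p : Cf d) : p.1 ⊆ (arr D y p).1 := by
  classical
  unfold arr
  split_ifs
  · exact subset_rfl
  · exact subset_rfl
  · exact Finset.subset_insert _ _

theorem BAS_steps_zero (D : Set (Site d)) (x : Site d) (B : Finset (Site d)) (k : ℕ)
    {f : Cf d → ℝ≥0∞} (h : ∀ p : Cf d, ¬ p.1 ⊆ B → f p = 0) :
    ∀ p : Cf d, ¬ p.1 ⊆ B → steps D x k f p = 0 := by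
  induction k with
  | zero => intro p hp; exact h p hp
  | succ k ih =>
    intro p hp
    show (∑ e : Dir d, steps D x k f (arr D (x + uvec e) p)) / (2 * d) = 0
    have : ∑ e : Dir d, steps D x k f (arr D (x + uvec e) p) = 0 := by
      refine Finset.sum_eq_zero fun e _ => ih _ fun hh => hp ?_
      exact (BAS_arr_sub D (x + uvec e) p).trans hh
    rw [this, ENNReal.zero_div]

theorem BAS_Ph_zero (ν : PMF ℕ) (D : Set (Site d)) (B : Finset (Site d)) (n : ℕ) :
    ∀ p : Cf d, ¬ p.1 ⊆ B → Ph ν D (ind fun C => C = B) n p = 0 := by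
  have key : ∀ A : Finset (Site d), ¬ A ⊆ B →
      ind (fun C : Finset (Site d) => C = B) A = 0 := by
    intro A hA
    have : ¬ (A = B) := fun h => hA (h ▸ subset_rfl)
    simp [ind, this]
  induction n with
  | zero =>
    rintro ⟨A, L⟩ hp
    cases L with
    | nil => simpa using key A hp
    | cons x L => simp
  | succ n ih =>
    rintro ⟨A, L⟩ hp
    cases L with
    | nil => simpa using key A hp
    | cons x L =>
      rw [Ph_succ_cons]
      unfold top
      rw [ENNReal.tsum_eq_zero]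
      intro k
      rw [BAS_steps_zero D x B k ih (A, L) hp, mul_zero]

theorem BAS_KD_ind (ν : PMF ℕ) (D : Set (Site d)) (G : Finset (Site d) → ℝ≥0∞)
    (B A : Finset (Site d)) :
    KD ν D (fun C => G C * ind (fun C : Finset (Site d) => C = B) C) A =
      G B * KD ν D (ind fun C => C = B) A := by
  classical
  rw [BAS_KD_tsum, tsum_eq_single B]
  · simp [ind]
  · intro C hC
    simp [ind, hC]

theorem BAS_Eg_tsum (ν : PMF ℕ) (D : ℕ → Set (Site d)) (n : ℕ) :
    ∀ f : Finset (Site d) → ℝ≥0∞, Eg ν D n f =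
      ∑' B, f B * Eg ν D n (ind fun C => C = B) := by
  induction n with
  | zero =>
    intro f
    show f {0} = ∑' B, f B * ind (fun C : Finset (Site d) => C = B) {0}
    exact BAS_single f {0}
  | succ n ih =>
    intro f
    show Eg ν D n (fun A => KD ν (D (n + 1)) (fun B =>
      ind (fun B : Finset (Site d) => (B : Set (Site d)) ⊆ D (n + 1)) B * f B) A) =
      ∑' B, f B * Eg ν D n (fun A => KD ν (D (n + 1)) (fun B' =>
        ind (fun B : Finset (Site d) => (B : Set (Site d)) ⊆ D (n + 1)) B' *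
          ind (fun C : Finset (Site d) => C = B) B') A)
    set G : Finset (Site d) → ℝ≥0∞ :=
      ind (fun B : Finset (Site d) => (B : Set (Site d)) ⊆ D (n + 1)) with hG
    have e1 : ∀ B, (fun A => KD ν (D (n + 1)) (fun B' => G B' *
        ind (fun C : Finset (Site d) => C = B) B') A) =
        fun A => G B * KD ν (D (n + 1)) (ind fun C => C = B) A := by
      intro B
      funext A
      exact BAS_KD_ind ν (D (n + 1)) G B A
    have e2 : (fun A => KD ν (D (n + 1)) (fun B => G B * f B) A) =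
        fun A => ∑' B, G B * f B * KD ν (D (n + 1)) (ind fun C => C = B) A := by
      funext A
      exact BAS_KD_tsum ν (D (n + 1)) _ A
    rw [e2, ih]
    have e3 : ∀ B, f B * Eg ν D n (fun A => KD ν (D (n + 1)) (fun B' => G B' *
        ind (fun C : Finset (Site d) => C = B) B') A) =
        ∑' C, f B * ((G B * KD ν (D (n + 1)) (ind fun C => C = B) C) *
          Eg ν D n (ind fun C' => C' = C)) := by
      intro B
      rw [e1 B, ih, ENNReal.tsum_mul_left]
    rw [tsum_congr e3, ENNReal.tsum_comm]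
    refine tsum_congr fun C => ?_
    rw [← ENNReal.tsum_mul_right]
    refine tsum_congr fun B => ?_
    ring

theorem t_BAS : S_BAS := by
  intro d ν hd
  refine ⟨?_, ?_, ?_, ?_, ?_, ?_, ?_⟩
  · intro D f g h n p
    exact BAS_Ph_mono ν D h n p
  · intro D f n p
    exact BAS_Ph_succ ν D f n p
  · intro D f n p
    exact BAS_Ph_tsum ν D f n p
  · intro D f A
    exact BAS_KD_tsum ν D f A
  · intro D n p
    exact BAS_Ph_le_one hd ν D n p
  · intro D n A L B h
    exact BAS_Ph_zero ν D B n (A, L) h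
  · intro D f n
    exact BAS_Eg_tsum ν D n f

end Pool.Agent.H74.BD
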