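import Pool.Agent.H74.BD.BAS

/-!
# Project BD, part UPC: upper tail for the chain
-/

set_option autoImplicit false

open scoped ENNReal
open Finset MeasureTheory

namespace Pool.Agent.H74.BD

open Pool.Agent.H3.BI

variable {d : ℕ}

theorem UPC_KD_mono (ν : PMF ℕ) (D : Set (Site d)) {f g : Finset (Site d) → ℝ≥0∞}
    (h : ∀ A, f A ≤ g A) (A : Finset (Site d)) : KD ν D f A ≤ KD ν D g A := by
  unfold KD
  exact iSup_mono fun n => BAS_Ph_mono ν D h n _

theorem UPC_KD_mul (ν : PMF ℕ) (D : Set (Site d)) (c : ℝ≥0∞) (f : Finset (Site d) → ℝ≥0∞)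
    (A : Finset (Site d)) : KD ν D (fun B => c * f B) A = c * KD ν D f A := by
  rw [BAS_KD_tsum, BAS_KD_tsum ν D f, ← ENNReal.tsum_mul_left]
  exact tsum_congr fun B => mul_assoc _ _ _

theorem UPC_Eg_mono (ν : PMF ℕ) (D : ℕ → Set (Site d)) (n : ℕ) :
    ∀ {f g : Finset (Site d) → ℝ≥0∞}, (∀ A, f A ≤ g A) → Eg ν D n f ≤ Eg ν D n g := by
  induction n with
  | zero => intro f g h; exact h _
  | succ n ih =>
    intro f g h
    show Eg ν D n _ ≤ Eg ν D n _
    refine ih fun A => UPC_KD_mono ν _ (fun B => ?_) A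
    exact mul_le_mul_right (h B) _

theorem UPC_Eg_mul (ν : PMF ℕ) (D : ℕ → Set (Site d)) (n : ℕ) (c : ℝ≥0∞)
    (f : Finset (Site d) → ℝ≥0∞) : Eg ν D n (fun A => c * f A) = c * Eg ν D n f := by
  rw [BAS_Eg_tsum, BAS_Eg_tsum ν D n f, ← ENNReal.tsum_mul_left]
  exact tsum_congr fun B => mul_assoc _ _ _

theorem UPC_Eg_succ_le (ν : PMF ℕ) (D : ℕ → Set (Site d)) (n : ℕ)
    (f : Finset (Site d) → ℝ≥0∞) :
    Eg ν D (n + 1) f ≤ Eg ν D n (fun A => KD ν (D (n + 1)) f A) := by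
  classical
  show Eg ν D n _ ≤ Eg ν D n _
  refine UPC_Eg_mono ν D n fun A => UPC_KD_mono ν _ (fun B => ?_) A
  have : ind (fun B : Finset (Site d) => (B : Set (Site d)) ⊆ D (n + 1)) B ≤ 1 := by
    unfold ind
    split_ifs
    · exact le_rfl
    · exact bot_le
  calc ind (fun B : Finset (Site d) => (B : Set (Site d)) ⊆ D (n + 1)) B * f B ≤ 1 * f B :=
        mul_le_mul_left this _
    _ = f B := one_mul _

theorem UPC_zero_mem {R : ℝ} (hR : 0 ≤ R) : (0 : Site d) ∈ Bl d R := by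
  show nrm (0 : Site d) ≤ R
  have : nrm (0 : Site d) = 0 := by
    unfold nrm nsq
    simp
  rw [this]
  exact hR

theorem t_UPC : S_UPC := by
  intro hUPP ν hν
  obtain ⟨C, η, hC, hη, hη1, hU⟩ := hUPP ν hν
  refine ⟨C, η, hC, hη, hη1, ?_⟩
  intro d hd R a b β n hR hb
  set D : ℕ → Set (Site d) := fun s => Bl d (R s) with hD
  set W : Finset (Site d) → ℝ≥0∞ := fun B => ENNReal.ofReal (Real.exp (∑ y ∈ B, a y)) with hW
  have key : ∀ s, 1 ≤ s → s ≤ n + 1 → ∀ A, KD ν (D s) W A ≤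
      ENNReal.ofReal (Real.exp (a 0 + β s)) * W A := by
    intro s hs1 hs2 A
    obtain ⟨hHU, hb0⟩ := hb s hs1 hs2
    unfold KD
    refine iSup_le fun m => ?_
    have h1 := hU d hd (D s) a (b s) hHU m A [0] (by
      intro x hx
      rw [List.mem_singleton] at hx
      rw [hx]
      exact UPC_zero_mem (hR s))
    refine h1.trans ?_
    rw [hW, ← ENNReal.ofReal_mul (Real.exp_pos _).le, ← Real.exp_add]
    refine ENNReal.ofReal_le_ofReal (Real.exp_le_exp.2 ?_)
    simp only [List.map_cons, List.map_nil, List.sum_cons, List.sum_nil, add_zero]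
    linarith
  have hEg : ∀ m, m ≤ n → Eg ν D m W ≤
      ENNReal.ofReal (Real.exp ((m + 1) * a 0 + ∑ s ∈ Icc 1 m, β s)) := by
    intro m
    induction m with
    | zero =>
      intro _
      show W {0} ≤ _
      rw [hW]
      simp
    | succ m ih =>
      intro hm
      have h1 := ih (by omega)
      calc Eg ν D (m + 1) W ≤ Eg ν D m (fun A => KD ν (D (m + 1)) W A) := UPC_Eg_succ_le ν D m W
        _ ≤ Eg ν D m (fun A => ENNReal.ofReal (Real.exp (a 0 + β (m + 1))) * W A) :=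
            UPC_Eg_mono ν D m fun A => key (m + 1) (by omega) (by omega) A
        _ = ENNReal.ofReal (Real.exp (a 0 + β (m + 1))) * Eg ν D m W := UPC_Eg_mul ν D m _ W
        _ ≤ ENNReal.ofReal (Real.exp (a 0 + β (m + 1))) *
            ENNReal.ofReal (Real.exp ((m + 1) * a 0 + ∑ s ∈ Icc 1 m, β s)) :=
            mul_le_mul_right h1 _
        _ = ENNReal.ofReal (Real.exp (((m + 1 : ℕ) + 1) * a 0 + ∑ s ∈ Icc 1 (m + 1), β s)) := by
            rw [← ENNReal.ofReal_mul (Real.exp_pos _).le, ← Real.exp_add,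
              Finset.sum_Icc_succ_top (by omega : 1 ≤ m + 1)]
            congr 2
            push_cast
            ring
  calc Eg ν D n (fun A => KD ν (Bl d (R (n + 1))) W A)
      ≤ Eg ν D n (fun A => ENNReal.ofReal (Real.exp (a 0 + β (n + 1))) * W A) :=
        UPC_Eg_mono ν D n fun A => key (n + 1) (by omega) le_rfl A
    _ = ENNReal.ofReal (Real.exp (a 0 + β (n + 1))) * Eg ν D n W := UPC_Eg_mul ν D n _ W
    _ ≤ ENNReal.ofReal (Real.exp (a 0 + β (n + 1))) *
        ENNReal.ofReal (Real.exp ((n + 1) * a 0 + ∑ s ∈ Icc 1 n, β s)) :=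
        mul_le_mul_right (hEg n le_rfl) _
    _ = ENNReal.ofReal (Real.exp ((n + 2) * a 0 + ∑ s ∈ Icc 1 (n + 1), β s)) := by
        rw [← ENNReal.ofReal_mul (Real.exp_pos _).le, ← Real.exp_add,
          Finset.sum_Icc_succ_top (by omega : 1 ≤ n + 1)]
        congr 2
        ring

end Pool.Agent.H74.BD
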