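import Pool.Agent.H3.BI.Stm2

/-!
# Project BD, part MMT: the total mass
-/

set_option autoImplicit false

open Finset Filter Topology

namespace Pool.Agent.H74.BD

open Pool.Agent.H3.BI

theorem bF_mono {d : ℕ} {r s : ℝ} (h : r ≤ s) : bF d r ⊆ bF d s := by
  intro y hy
  rw [mem_bF] at hy ⊢
  linarith

/-- **Part MMT.** -/
theorem t_MMT : S_MMT := by
  classical
  intro hS hM hC _ d hd
  obtain ⟨a₁, ha₁, -, hm⟩ := hS d hd
  obtain ⟨a₂, ha₂, hG⟩ := hM d hd
  obtain ⟨hom, C₂, hC₂, hcnt⟩ := hC d hd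
  refine ⟨max a₁ a₂, ha₁.trans (le_max_left _ _), fun a ha => ?_⟩
  obtain ⟨C₁, hC₁, -, hmm⟩ := hm a ((le_max_left _ _).trans ha)
  obtain ⟨C₃, hC₃, hgr⟩ := hG a ((le_max_right _ _).trans ha)
  have h0 : ∀ x, 0 ≤ mm d a x := fun x => (hmm x).1
  have t0 : Tendsto (fun n : ℕ => ((bF d (n : ℝ)).card : ℝ) / (n : ℝ) ^ d) atTop
      (𝓝 (om d)) := by
    rw [tendsto_iff_norm_sub_tendsto_zero]
    refine squeeze_zero' (Eventually.of_forall fun n => norm_nonneg _) ?_
      (tendsto_const_div_atTop_nhds_zero_nat C₂)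
    filter_upwards [eventually_ge_atTop 1] with n hn
    have hn1 : (1 : ℝ) ≤ n := by exact_mod_cast hn
    have h := hcnt n hn1
    have hp : (0 : ℝ) < (n : ℝ) ^ d := by positivity
    have e1 : ((bF d (n : ℝ)).card : ℝ) / (n : ℝ) ^ d - om d =
        (((bF d (n : ℝ)).card : ℝ) - om d * (n : ℝ) ^ d) / (n : ℝ) ^ d := by
      field_simp
    rw [e1, Real.norm_eq_abs, abs_div, abs_of_pos hp, div_le_div_iff₀ hp (by linarith)]
    obtain ⟨k, rfl⟩ : ∃ k, d = k + 1 := ⟨d - 1, by omega⟩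
    calc |((bF (k + 1) (n : ℝ)).card : ℝ) - om (k + 1) * (n : ℝ) ^ (k + 1)| * n
        ≤ C₂ * (n : ℝ) ^ (k + 1 - 1) * n := mul_le_mul_of_nonneg_right h (by linarith)
      _ = C₂ * (n : ℝ) ^ (k + 1) := by
        rw [Nat.add_sub_cancel, pow_succ]
        ring
  have r1 : Tendsto (fun n : ℕ => (n : ℝ) / ((n : ℝ) + 1)) atTop (𝓝 1) :=
    tendsto_natCast_div_add_atTop (1 : ℝ)
  have r2 : Tendsto (fun n : ℕ => ((n : ℝ) + 2) / ((n : ℝ) + 1)) atTop (𝓝 1) := by
    have h1 := (tendsto_add_atTop_iff_nat 1).2 r1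
    have h2 := h1.inv₀ one_ne_zero
    rw [inv_one] at h2
    refine h2.congr fun n => ?_
    rw [inv_div]
    push_cast
    congr 1
    ring
  have u0 : Tendsto (fun n : ℕ => ((bF d (n : ℝ)).card : ℝ) / ((n : ℝ) + 1) ^ d) atTop
      (𝓝 (om d)) := by
    have h1 := t0.mul (r1.pow d)
    rw [one_pow, mul_one] at h1
    refine h1.congr' ?_
    filter_upwards [eventually_ge_atTop 1] with n hn
    have hn1 : (1 : ℝ) ≤ n := by exact_mod_cast hn
    rw [div_pow]
    have : (0 : ℝ) < (n : ℝ) ^ d := by positivity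
    field_simp
  have u1 : Tendsto (fun n : ℕ => ((bF d ((n : ℝ) + 1)).card : ℝ) / ((n : ℝ) + 1) ^ d) atTop
      (𝓝 (om d)) := by
    have h1 := (tendsto_add_atTop_iff_nat 1).2 t0
    refine h1.congr fun n => ?_
    push_cast
    rfl
  have u2 : Tendsto (fun n : ℕ => ((bF d ((n : ℝ) + 2)).card : ℝ) / ((n : ℝ) + 1) ^ d) atTop
      (𝓝 (om d)) := by
    have h1 := ((tendsto_add_atTop_iff_nat 2).2 t0).mul (r2.pow d)
    rw [one_pow, mul_one] at h1
    refine h1.congr fun n => ?_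
    push_cast
    rw [div_pow]
    have : (0 : ℝ) < ((n : ℝ) + 2) ^ d := by positivity
    field_simp
  -- the sums
  have s1 : Tendsto (fun n : ℕ => ∑ x ∈ bF d ((n : ℝ) + 1), mm d a x) atTop (𝓝 (om d)) := by
    have hlim : Tendsto (fun n : ℕ => C₃ * (((bF d ((n : ℝ) + 2)).card : ℝ) / ((n : ℝ) + 1) ^ d -
        ((bF d (n : ℝ)).card : ℝ) / ((n : ℝ) + 1) ^ d)) atTop (𝓝 0) := by
      have := (u2.sub u0).const_mul C₃
      rw [sub_self, mul_zero] at this
      exact this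
    have hz : Tendsto (fun n : ℕ => ((bF d ((n : ℝ) + 1)).card : ℝ) / ((n : ℝ) + 1) ^ d -
        ∑ x ∈ bF d ((n : ℝ) + 1), mm d a x) atTop (𝓝 0) := by
      refine squeeze_zero_norm' ?_ hlim
      filter_upwards [eventually_ge_atTop ⌈C₃⌉₊] with n hn
      have hn1 : C₃ ≤ (n : ℝ) + 1 := by
        have := (Nat.le_ceil C₃).trans (Nat.cast_le.2 hn)
        linarith
      obtain ⟨psi, -, -, -, -, hpsi⟩ := hgr ((n : ℝ) + 1) hn1
      have h1 := hpsi (fun _ => 1) (fun _ _ => zero_le_one)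
      have hPP : ∀ x : Site d, PP (fun _ => (1 : ℝ)) x = 1 := by
        intro x
        unfold PP
        have hd0 : (d : ℝ) ≠ 0 := by
          have : (3 : ℝ) ≤ d := by exact_mod_cast hd
          linarith
        simp only [sum_const, card_univ, Fintype.card_prod, Fintype.card_fin, Fintype.card_bool,
          nsmul_eq_mul]
        push_cast
        field_simp
      simp only [hPP, sub_self, mul_zero, sum_const_zero, add_zero, mul_one, sum_const,
        nsmul_eq_mul] at h1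
      have e1 : (n : ℝ) + 1 + 1 = (n : ℝ) + 2 := by ring
      have e2 : (n : ℝ) + 1 - 1 = (n : ℝ) := by ring
      rw [e1, e2] at h1
      have h2 : (((bF d ((n : ℝ) + 2) \ bF d (n : ℝ)).card : ℕ) : ℝ) =
          ((bF d ((n : ℝ) + 2)).card : ℝ) - ((bF d (n : ℝ)).card : ℝ) := by
        rw [card_sdiff_of_subset (bF_mono (by linarith)), Nat.cast_sub]
        exact card_le_card (bF_mono (by linarith))
      rw [h2] at h1
      have hp : (0 : ℝ) < ((n : ℝ) + 1) ^ d := by positivity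
      rw [Real.norm_eq_abs]
      have e3 : ((bF d ((n : ℝ) + 1)).card : ℝ) / ((n : ℝ) + 1) ^ d -
          ∑ x ∈ bF d ((n : ℝ) + 1), mm d a x =
          (((bF d ((n : ℝ) + 1)).card : ℝ) - ((n : ℝ) + 1) ^ d *
            ∑ x ∈ bF d ((n : ℝ) + 1), mm d a x) / ((n : ℝ) + 1) ^ d := by
        field_simp
      rw [e3, abs_div, abs_of_pos hp, ← sub_div, ← mul_div_assoc]
      exact div_le_div_of_nonneg_right h1 hp.le
    have := u1.sub hz
    rw [sub_zero] at this
    refine this.congr fun n => ?_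
    ring
  have s0 : Tendsto (fun n : ℕ => ∑ x ∈ bF d (n : ℝ), mm d a x) atTop (𝓝 (om d)) := by
    rw [← tendsto_add_atTop_iff_nat 1]
    refine s1.congr fun n => ?_
    push_cast
    rfl
  have hmono : Monotone fun n : ℕ => bF d (n : ℝ) := fun m n h => bF_mono (Nat.cast_le.2 h)
  have hex : Tendsto (fun n : ℕ => bF d (n : ℝ)) atTop atTop := by
    refine tendsto_atTop_finset_of_monotone hmono fun x => ⟨⌈nrm x⌉₊, ?_⟩
    rw [mem_bF]
    exact Nat.le_ceil _
  have hmono2 : Monotone fun n : ℕ => ∑ x ∈ bF d (n : ℝ), mm d a x := fun m n h =>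
    sum_le_sum_of_subset_of_nonneg (hmono h) fun x _ _ => h0 x
  have hle : ∀ n : ℕ, ∑ x ∈ bF d (n : ℝ), mm d a x ≤ om d := fun n => hmono2.ge_of_tendsto s0 n
  have hsum : Summable (mm d a) := by
    refine summable_of_sum_le h0 (c := om d) fun Y => ?_
    obtain ⟨n, hn⟩ := ((tendsto_atTop.1 hex Y).exists)
    exact (sum_le_sum_of_subset_of_nonneg hn fun x _ _ => h0 x).trans (hle n)
  have hlim := (hsum.hasSum.comp hex)
  have huniq := tendsto_nhds_unique hlim s0
  rw [← huniq]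
  exact hsum.hasSum

end Pool.Agent.H74.BD
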