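import Pool.Agent.H3.BI.Stm2
import Pool.Agent.H10.BD.POT

/-!
# Project BD, part MVI: the discrete Green identity
-/

set_option autoImplicit false

open Finset

namespace Pool.Agent.H74.BD

open Pool.Agent.H3.BI Pool.Agent.H10.BD

/-- The profile of the function `psi`. -/
noncomputable def gg (β t : ℝ) : ℝ := (t - 1) + (1 / β) * (t ^ (-β) - 1)

theorem gg_nonneg {β t : ℝ} (hβ : 0 < β) (ht : 0 < t) : 0 ≤ gg β t := by
  unfold gg
  have h1 : t ^ (-β) = Real.exp (Real.log t * (-β)) := Real.rpow_def_of_pos ht _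
  have h2 := Real.add_one_le_exp (Real.log t * (-β))
  have h3 := Real.log_le_sub_one_of_pos ht
  rw [h1]
  have h4 : (1 / β) * (Real.log t * (-β)) ≤ (1 / β) * (Real.exp (Real.log t * (-β)) - 1) :=
    mul_le_mul_of_nonneg_left (by linarith) (by positivity)
  have h5 : (1 / β) * (Real.log t * (-β)) = - Real.log t := by field_simp
  linarith

theorem exp_bd (y M : ℝ) (hM : 1 ≤ M) (hy : Real.exp y ≤ M) :
    Real.exp y - 1 - y ≤ M * y ^ 2 := by
  have h1 : Real.exp y - 1 ≤ y * Real.exp y := by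
    have := Real.add_one_le_exp (-y)
    have h2 := mul_le_mul_of_nonneg_right this (Real.exp_pos y).le
    rw [← Real.exp_add, neg_add_cancel, Real.exp_zero] at h2
    linarith
  rcases le_total 0 y with h | h
  · have h3 : y * (Real.exp y - 1) ≤ y * (y * Real.exp y) := mul_le_mul_of_nonneg_left h1 h
    have h4 : y * (y * Real.exp y) ≤ y * (y * M) :=
      mul_le_mul_of_nonneg_left (mul_le_mul_of_nonneg_left hy h) h
    have h5 : y * (y * M) = M * y ^ 2 := by ring
    linarith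
  · have h2 := Real.add_one_le_exp y
    have h3 : (-y) * (1 - Real.exp y) ≤ (-y) * (-y) :=
      mul_le_mul_of_nonneg_left (by linarith) (by linarith)
    have h4 : y ^ 2 ≤ M * y ^ 2 := by nlinarith [sq_nonneg y]
    have h5 : (-y) * (-y) = y ^ 2 := by ring
    nlinarith

theorem gg_le {β t : ℝ} (hβ : 0 < β) (h0 : 1 / 4 ≤ t) :
    gg β t ≤ (4 + 16 * (β * 4 ^ β)) * (t - 1) ^ 2 := by
  have ht : 0 < t := by linarith
  unfold gg
  have h1 : t ^ (-β) = Real.exp (-(β * Real.log t)) := by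
    rw [Real.rpow_def_of_pos ht]; congr 1; ring
  have hM : (1 : ℝ) ≤ 4 ^ β := Real.one_le_rpow (by norm_num) hβ.le
  have h2 : Real.exp (-(β * Real.log t)) ≤ 4 ^ β := by
    rw [← h1, Real.rpow_neg ht.le, ← Real.inv_rpow ht.le]
    apply Real.rpow_le_rpow (by positivity) _ hβ.le
    rw [inv_le_comm₀ ht (by norm_num)]
    linarith
  have h3 := exp_bd _ _ hM h2
  rw [h1]
  have h4 : (1 / β) * (Real.exp (-(β * Real.log t)) - 1) ≤
      (1 / β) * (-(β * Real.log t) + 4 ^ β * (-(β * Real.log t)) ^ 2) :=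
    mul_le_mul_of_nonneg_left (by linarith) (by positivity)
  have h5 : (1 / β) * (-(β * Real.log t) + 4 ^ β * (-(β * Real.log t)) ^ 2) =
      -Real.log t + β * 4 ^ β * (Real.log t) ^ 2 := by
    field_simp
  have h6 : 1 - t⁻¹ ≤ Real.log t := Real.one_sub_inv_le_log_of_pos ht
  have h7 : Real.log t ≤ t - 1 := Real.log_le_sub_one_of_pos ht
  have h8 : t⁻¹ ≤ 4 := by
    rw [inv_le_comm₀ ht (by norm_num)]
    linarith
  have h9 : t⁻¹ - 1 = -(t - 1) + (t - 1) ^ 2 * t⁻¹ := by field_simp; ring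
  have h10 : (t - 1) ^ 2 * t⁻¹ ≤ (t - 1) ^ 2 * 4 := mul_le_mul_of_nonneg_left h8 (sq_nonneg _)
  have h11 : |Real.log t| ≤ 4 * |t - 1| := by
    rw [abs_le]
    constructor
    · have : 1 - t⁻¹ = (t - 1) * t⁻¹ := by field_simp
      have h12 : -(4 * |t - 1|) ≤ (t - 1) * t⁻¹ := by
        have h13 : |(t - 1) * t⁻¹| ≤ |t - 1| * 4 := by
          rw [abs_mul, abs_of_pos (inv_pos.2 ht)]
          exact mul_le_mul_of_nonneg_left h8 (abs_nonneg _)
        have := (abs_le.1 h13).1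
        linarith
      linarith
    · have := le_abs_self (t - 1)
      have := abs_nonneg (t - 1)
      linarith
  have h12 : (Real.log t) ^ 2 ≤ 16 * (t - 1) ^ 2 := by
    have := pow_le_pow_left₀ (abs_nonneg _) h11 2
    rw [sq_abs, mul_pow, sq_abs] at this
    linarith
  have h13 : β * 4 ^ β * (Real.log t) ^ 2 ≤ β * 4 ^ β * (16 * (t - 1) ^ 2) :=
    mul_le_mul_of_nonneg_left h12 (by positivity)
  nlinarith

theorem gg_scale {d : ℕ} {ρ s : ℝ} (hρ : 0 < ρ) (hs : 0 < s) :
    ρ ^ 2 * gg (bt d) (s / ρ ^ 2) = s - ρ ^ 2 + (1 / bt d) * (ρ ^ d * s ^ (-bt d) - ρ ^ 2) := by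
  unfold gg
  have h1 : ρ ^ 2 * (s / ρ ^ 2) ^ (-bt d) = ρ ^ d * s ^ (-bt d) := by
    rw [Real.div_rpow hs.le (by positivity)]
    have h2 : (ρ ^ 2) ^ (-bt d) = ρ ^ 2 / ρ ^ d := by
      rw [← Real.rpow_natCast ρ 2, ← Real.rpow_mul hρ.le, ← Real.rpow_natCast ρ d,
        ← Real.rpow_sub hρ]
      congr 1
      unfold bt
      push_cast
      ring
    rw [h2]
    field_simp
  have h3 : ρ ^ 2 * ((s / ρ ^ 2 - 1) + (1 / bt d) * ((s / ρ ^ 2) ^ (-bt d) - 1)) =
      (ρ ^ 2 * (s / ρ ^ 2) - ρ ^ 2) + (1 / bt d) * (ρ ^ 2 * (s / ρ ^ 2) ^ (-bt d) - ρ ^ 2) := by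
    ring
  rw [h3, h1]
  have h4 : ρ ^ 2 * (s / ρ ^ 2) = s := by field_simp
  rw [h4]

theorem bt_pos {d : ℕ} (hd : 3 ≤ d) : 0 < bt d := by
  unfold bt
  have : (3 : ℝ) ≤ d := by exact_mod_cast hd
  linarith

theorem uvec_flip {d : ℕ} (e : Dir d) : uvec (e.1, !e.2) = - uvec e := by
  unfold uvec
  obtain ⟨i, b⟩ := e
  cases b
  · simp [← Pi.single_neg]
  · simp [← Pi.single_neg]

theorem sum_flip {d : ℕ} (g : Site d → ℝ) (y : Site d) :
    ∑ e : Dir d, g (y - uvec e) = ∑ e : Dir d, g (y + uvec e) := by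
  rw [← Equiv.sum_comp (Equiv.prodCongr (Equiv.refl (Fin d)) Equiv.boolNot)
    (fun e : Dir d => g (y + uvec e))]
  refine sum_congr rfl fun e _ => ?_
  have : (Equiv.prodCongr (Equiv.refl (Fin d)) Equiv.boolNot) e = (e.1, !e.2) := rfl
  rw [this, uvec_flip, sub_eq_add_neg]

theorem nrm_sub_uvec_le {d : ℕ} (x : Site d) (e : Dir d) : nrm x - 1 ≤ nrm (x + uvec e) := by
  have h := nrm_add_uvec_le (x + uvec e) (e.1, !e.2)
  rw [uvec_flip, add_neg_cancel_right] at h
  linarith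

theorem sum_PP {d : ℕ} (ρ : ℝ) (psi f : Site d → ℝ) (h0 : ∀ x, ρ < nrm x → psi x = 0) :
    ∑ x ∈ bF d ρ, psi x * PP f x = ∑ y ∈ bF d (ρ + 1), PP psi y * f y := by
  classical
  have h1 : ∀ e : Dir d, ∑ x ∈ bF d ρ, psi x * f (x + uvec e) =
      ∑ y ∈ bF d (ρ + 1), psi (y - uvec e) * f y := by
    intro e
    have h2 : ∑ x ∈ bF d ρ, psi x * f (x + uvec e) =
        ∑ y ∈ (bF d ρ).image (fun x => x + uvec e), psi (y - uvec e) * f y := by
      rw [sum_image]
      · refine sum_congr rfl fun x _ => ?_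
        rw [add_sub_cancel_right]
      · intro x _ y _ hxy
        exact add_right_cancel hxy
    rw [h2]
    apply sum_subset
    · intro y hy
      obtain ⟨x, hx, rfl⟩ := mem_image.1 hy
      rw [mem_bF] at hx ⊢
      exact (nrm_add_uvec_le x e).trans (by linarith)
    · intro y _ hy
      rw [h0, zero_mul]
      by_contra hc
      apply hy
      refine mem_image.2 ⟨y - uvec e, ?_, by simp⟩
      rw [mem_bF]
      exact not_lt.1 hc
  have h3 : ∑ x ∈ bF d ρ, psi x * PP f x =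
      (∑ e : Dir d, ∑ x ∈ bF d ρ, psi x * f (x + uvec e)) / (2 * d) := by
    rw [sum_comm, sum_div]
    refine sum_congr rfl fun x _ => ?_
    unfold PP
    rw [← mul_sum, mul_div_assoc]
  rw [h3, sum_congr rfl fun e _ => h1 e, sum_comm, sum_div]
  refine sum_congr rfl fun y _ => ?_
  rw [← sum_mul, sum_flip]
  unfold PP
  ring

set_option maxHeartbeats 4000000 in
/-- **Part MVI.** -/
theorem t_MVI : S_MVI := by
  classical
  intro hS d hd
  obtain ⟨a₀, ha₀, -, hm⟩ := hS d hd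
  refine ⟨a₀, ha₀, fun a ha => ?_⟩
  obtain ⟨C₁, hC₁, -, hmm⟩ := hm a ha
  have ha3 : 3 ≤ a := ha₀.trans ha
  have hβ := bt_pos hd
  obtain ⟨K, hK⟩ : ∃ K : ℝ, K = 4 + 16 * (bt d * 4 ^ bt d) := ⟨_, rfl⟩
  have hK4 : 4 ≤ K := by
    rw [hK]
    have : (0 : ℝ) ≤ bt d * 4 ^ bt d := by positivity
    linarith
  refine ⟨52 * K + 1 + C₁ * 2 ^ (d + 2) + a + a * bt d + 1 / bt d + 6, ?_, fun ρ hρ => ?_⟩
  · have h1 : 0 ≤ C₁ * 2 ^ (d + 2) := by positivity
    have h2 : 0 ≤ a * bt d := by positivity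
    have h3 : 0 ≤ 1 / bt d := by positivity
    linarith
  have p1 : 0 ≤ C₁ * 2 ^ (d + 2) := by positivity
  have p2 : 0 ≤ a * bt d := by positivity
  have p3 : 0 ≤ 1 / bt d := by positivity
  have hρ6 : 6 ≤ ρ := by linarith
  have hρa : a ≤ ρ := by linarith
  have hρab : a * bt d ≤ ρ := by linarith
  have hρ0 : 0 < ρ := by linarith
  have hab : a ≤ (1 / bt d) * ρ ^ 2 := by
    rw [one_div, ← div_eq_inv_mul, le_div_iff₀ hβ]
    nlinarith
  obtain ⟨C, hC⟩ : ∃ C : ℝ, C = 52 * K + 1 + C₁ * 2 ^ (d + 2) + a + a * bt d + 1 / bt d + 6 :=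
    ⟨_, rfl⟩
  rw [← hC] at hρ ⊢
  have hpos : ∀ x : Site d, 0 < nsq x + a := fun x => by
    have := nsq_nonneg x
    linarith
  obtain ⟨chi, hchi⟩ : ∃ chi : Site d → ℝ, ∀ x, chi x = ρ ^ 2 * gg (bt d) ((nsq x + a) / ρ ^ 2) :=
    ⟨_, fun _ => rfl⟩
  have hchi0 : ∀ x, 0 ≤ chi x := fun x => by
    rw [hchi]
    exact mul_nonneg (by positivity) (gg_nonneg hβ (div_pos (hpos x) (by positivity)))
  have hchi1 : ∀ x, chi x = nsq x + a - ρ ^ 2 + (1 / bt d) * (ρ ^ d * kk d a x - ρ ^ 2) := by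
    intro x
    rw [hchi, gg_scale hρ0 (hpos x)]
    rfl
  obtain ⟨psi, hpsi⟩ : ∃ psi : Site d → ℝ, ∀ x, psi x = if nrm x ≤ ρ then chi x else 0 :=
    ⟨_, fun _ => rfl⟩
  have hpsi0 : ∀ x, 0 ≤ psi x := fun x => by
    rw [hpsi]
    split_ifs
    · exact hchi0 x
    · exact le_rfl
  have hout : ∀ x, ρ < nrm x → psi x = 0 := fun x hx => by
    rw [hpsi, if_neg (not_le.2 hx)]
  have hnear : ∀ x, ρ / 2 ≤ nrm x → psi x ≤ 4 * K * (ρ + 1 - nrm x) ^ 2 := by
    intro x hx
    rw [hpsi]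
    split_ifs with hx2
    · rw [hchi]
      have ht : 1 / 4 ≤ (nsq x + a) / ρ ^ 2 := by
        rw [le_div_iff₀ (by positivity), ← nrm_sq]
        nlinarith
      have h1 := gg_le hβ ht
      rw [← hK] at h1
      have h2 : ((nsq x + a) / ρ ^ 2 - 1) ^ 2 ≤ 4 * (ρ + 1 - nrm x) ^ 2 / ρ ^ 2 := by
        have h3 : (nsq x + a) / ρ ^ 2 - 1 = (nsq x + a - ρ ^ 2) / ρ ^ 2 := by
          field_simp
        rw [h3, div_pow, div_le_div_iff₀ (by positivity) (by positivity)]
        have h4 : (nsq x + a - ρ ^ 2) ^ 2 ≤ (2 * ρ * (ρ + 1 - nrm x)) ^ 2 := by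
          apply sq_le_sq'
          · rw [← nrm_sq]
            nlinarith
          · rw [← nrm_sq]
            nlinarith
        calc (nsq x + a - ρ ^ 2) ^ 2 * ρ ^ 2 ≤ (2 * ρ * (ρ + 1 - nrm x)) ^ 2 * ρ ^ 2 :=
              mul_le_mul_of_nonneg_right h4 (by positivity)
          _ = 4 * (ρ + 1 - nrm x) ^ 2 * (ρ ^ 2) ^ 2 := by ring
      calc ρ ^ 2 * gg (bt d) ((nsq x + a) / ρ ^ 2)
          ≤ ρ ^ 2 * (K * ((nsq x + a) / ρ ^ 2 - 1) ^ 2) :=
            mul_le_mul_of_nonneg_left h1 (by positivity)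
        _ ≤ ρ ^ 2 * (K * (4 * (ρ + 1 - nrm x) ^ 2 / ρ ^ 2)) :=
            mul_le_mul_of_nonneg_left (mul_le_mul_of_nonneg_left h2 (by linarith)) (by positivity)
        _ = 4 * K * (ρ + 1 - nrm x) ^ 2 := by
            field_simp
    · positivity
  refine ⟨psi, hpsi0, hout, ?_, ?_, ?_⟩
  · intro x _ hx
    refine (hnear x hx).trans (mul_le_mul_of_nonneg_right ?_ (sq_nonneg _))
    linarith
  · intro x hx
    rw [hpsi, if_pos hx, hchi1]
    have h1 : nsq x ≤ ρ ^ 2 := by
      rw [← nrm_sq]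
      exact pow_le_pow_left₀ (nrm_nonneg x) hx 2
    have h2 : kk d a x ≤ (nsq x + 1) ^ (-bt d) := by
      unfold kk
      apply Real.rpow_le_rpow_of_nonpos
      · have := nsq_nonneg x
        linarith
      · linarith
      · linarith
    have h3 : (1 / bt d) * (ρ ^ d * kk d a x) ≤ (1 / bt d) * (ρ ^ d * (nsq x + 1) ^ (-bt d)) :=
      mul_le_mul_of_nonneg_left (mul_le_mul_of_nonneg_left h2 (by positivity)) p3
    have h4 : 0 ≤ ρ ^ d * (nsq x + 1) ^ (-bt d) := by
      have := nsq_nonneg x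
      positivity
    have h5 : (1 / bt d) * (ρ ^ d * (nsq x + 1) ^ (-bt d)) ≤
        C * (ρ ^ d * (nsq x + 1) ^ (-bt d)) := mul_le_mul_of_nonneg_right (by linarith) h4
    have h6 : (1 / bt d) * (ρ ^ d * kk d a x - ρ ^ 2) =
        (1 / bt d) * (ρ ^ d * kk d a x) - (1 / bt d) * ρ ^ 2 := by ring
    rw [h6, mul_assoc]
    linarith
  · intro f hf
    -- the bracket
    obtain ⟨br, hbr⟩ : ∃ br : Site d → ℝ, ∀ y, br y =
        (if nrm y ≤ ρ then 1 - ρ ^ d * mm d a y else 0) + psi y - PP psi y := ⟨_, fun _ => rfl⟩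
    have hfil : bF d ρ = (bF d (ρ + 1)).filter fun y => nrm y ≤ ρ := by
      ext y
      rw [mem_filter, mem_bF, mem_bF]
      constructor
      · intro h
        exact ⟨by linarith, h⟩
      · exact fun h => h.2
    have hE : ∑ x ∈ bF d ρ, f x - ρ ^ d * ∑ x ∈ bF d ρ, mm d a x * f x +
        ∑ x ∈ bF d ρ, psi x * (f x - PP f x) = ∑ y ∈ bF d (ρ + 1), br y * f y := by
      have e1 : ∑ x ∈ bF d ρ, psi x * (f x - PP f x) =
          ∑ x ∈ bF d ρ, psi x * f x - ∑ y ∈ bF d (ρ + 1), PP psi y * f y := by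
        rw [← sum_PP ρ psi f hout, ← sum_sub_distrib]
        exact sum_congr rfl fun x _ => by ring
      have e2 : ∑ x ∈ bF d ρ, f x - ρ ^ d * ∑ x ∈ bF d ρ, mm d a x * f x =
          ∑ y ∈ bF d (ρ + 1), (if nrm y ≤ ρ then 1 - ρ ^ d * mm d a y else 0) * f y := by
        rw [mul_sum, ← sum_sub_distrib, hfil, sum_filter]
        refine sum_congr rfl fun y _ => ?_
        split_ifs
        · ring
        · ring
      have e3 : ∑ x ∈ bF d ρ, psi x * f x = ∑ y ∈ bF d (ρ + 1), psi y * f y := by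
        rw [hfil, sum_filter]
        refine sum_congr rfl fun y _ => ?_
        split_ifs with h
        · rfl
        · rw [hout y (not_le.1 h), zero_mul]
      rw [e1, e2, e3, add_sub, ← sum_add_distrib, ← sum_sub_distrib]
      refine sum_congr rfl fun y _ => ?_
      rw [hbr]
      ring
    rw [hE]
    have hin : ∀ y, nrm y ≤ ρ - 1 → br y = 0 := by
      intro y hy
      have h1 : ∀ e : Dir d, psi (y + uvec e) = chi (y + uvec e) := by
        intro e
        rw [hpsi, if_pos]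
        exact (nrm_add_uvec_le y e).trans (by linarith)
      have hd0 : (d : ℝ) ≠ 0 := by
        have : (3 : ℝ) ≤ d := by exact_mod_cast hd
        linarith
      have h2 : PP psi y = PP nsq y + a - ρ ^ 2 + (1 / bt d) * (ρ ^ d * PP (kk d a) y - ρ ^ 2) := by
        unfold PP
        rw [sum_congr rfl fun e _ => h1 e, sum_congr rfl fun e _ => hchi1 (y + uvec e)]
        rw [sum_add_distrib, sum_sub_distrib, sum_add_distrib, ← mul_sum, sum_sub_distrib,
          ← mul_sum]
        simp only [sum_const, card_univ, Fintype.card_prod, Fintype.card_fin, Fintype.card_bool,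
          nsmul_eq_mul]
        push_cast
        field_simp
      rw [hbr, if_pos (by linarith), h2, hpsi, if_pos (by linarith), hchi1,
        PP_nsq (by omega)]
      unfold mm
      have h3 : 2 / ((d : ℝ) - 2) = 1 / bt d := by
        unfold bt
        rw [one_div, inv_div]
      rw [h3]
      ring
    have hbd : ∀ y, ρ - 1 < nrm y → nrm y ≤ ρ + 1 → |br y| ≤ C := by
      intro y hy1 hy2
      have b1 : psi y ≤ 16 * K := by
        rcases le_or_gt (nrm y) ρ with h | h
        · refine (hnear y (by linarith)).trans ?_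
          have : (ρ + 1 - nrm y) ^ 2 ≤ 2 ^ 2 :=
            pow_le_pow_left₀ (by linarith) (by linarith) 2
          nlinarith
        · rw [hout y h]
          positivity
      have b2 : ∀ e : Dir d, psi (y + uvec e) ≤ 36 * K := by
        intro e
        have h3 := nrm_sub_uvec_le y e
        rcases le_or_gt (nrm (y + uvec e)) ρ with h | h
        · refine (hnear _ (by linarith)).trans ?_
          have : (ρ + 1 - nrm (y + uvec e)) ^ 2 ≤ 3 ^ 2 :=
            pow_le_pow_left₀ (by linarith) (by linarith) 2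
          nlinarith
        · rw [hout _ h]
          positivity
      have hd0 : (0 : ℝ) < d := by
        have : (3 : ℝ) ≤ d := by exact_mod_cast hd
        linarith
      have b3 : PP psi y ≤ 36 * K := by
        unfold PP
        rw [div_le_iff₀ (by positivity)]
        refine (sum_le_sum fun e _ => b2 e).trans ?_
        simp only [sum_const, card_univ, Fintype.card_prod, Fintype.card_fin, Fintype.card_bool,
          nsmul_eq_mul]
        push_cast
        apply le_of_eq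
        ring
      have b4 : 0 ≤ PP psi y := div_nonneg (sum_nonneg fun e _ => hpsi0 _) (by positivity)
      obtain ⟨m0, -, m2⟩ := hmm y
      have b5 : ρ ^ d * mm d a y ≤ C₁ * 2 ^ (d + 2) := by
        have h3 : (nsq y + 1) ^ (-((d : ℝ) / 2) - 1) ≤ ((ρ / 2) ^ 2) ^ (-((d : ℝ) / 2) - 1) := by
          apply Real.rpow_le_rpow_of_nonpos
          · positivity
          · rw [← nrm_sq]
            nlinarith
          · linarith
        have h4 : ((ρ / 2) ^ 2) ^ (-((d : ℝ) / 2) - 1) = ((ρ / 2) ^ (d + 2))⁻¹ := by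
          rw [← Real.rpow_natCast (ρ / 2) 2, ← Real.rpow_mul (by positivity),
            ← Real.rpow_natCast (ρ / 2) (d + 2), ← Real.rpow_neg (by positivity)]
          congr 1
          push_cast
          ring
        rw [h4] at h3
        have h5 : ρ ^ d * mm d a y ≤ ρ ^ d * (C₁ * ((ρ / 2) ^ (d + 2))⁻¹) := by
          apply mul_le_mul_of_nonneg_left _ (by positivity)
          exact m2.trans (mul_le_mul_of_nonneg_left h3 (by linarith))
        have h6 : ρ ^ d * (C₁ * ((ρ / 2) ^ (d + 2))⁻¹) = C₁ * 2 ^ (d + 2) / ρ ^ 2 := by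
          rw [div_pow, inv_div, pow_add ρ d 2]
          field_simp
        have h7 : C₁ * 2 ^ (d + 2) / ρ ^ 2 ≤ C₁ * 2 ^ (d + 2) := by
          apply div_le_self p1
          nlinarith
        linarith
      have b6 : 0 ≤ ρ ^ d * mm d a y := mul_nonneg (by positivity) m0
      have b7 := hpsi0 y
      rw [hbr, abs_le]
      constructor
      · split_ifs <;> linarith
      · split_ifs <;> linarith
    have hsub : bF d (ρ - 1) ⊆ bF d (ρ + 1) := by
      intro y hy
      rw [mem_bF] at hy ⊢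
      linarith
    rw [← sum_sdiff hsub]
    have hz : ∑ y ∈ bF d (ρ - 1), br y * f y = 0 := by
      apply sum_eq_zero
      intro y hy
      rw [mem_bF] at hy
      rw [hin y hy, zero_mul]
    rw [hz, add_zero]
    refine (abs_sum_le_sum_abs _ _).trans ?_
    rw [mul_sum]
    apply sum_le_sum
    intro y hy
    rw [mem_sdiff, mem_bF, mem_bF] at hy
    rw [abs_mul, abs_of_nonneg (hf y hy.1)]
    exact mul_le_mul_of_nonneg_right (hbd y (not_le.1 hy.2) hy.1) (hf y hy.1)

end Pool.Agent.H74.BD
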